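import Pool.Agent.Helper52.Rare.Defs

/-!
# Reusing the same random block in a program with rare errors

Chain counting: if `s k y` is the state after the blocks `G 0 y, ..., G (k-1) y`, the number of
sequences `y 0, ..., y (m-1)` in a set `R` with `s (k+1) (y k) = s (k+1) (y (k+1))` is at least
`|R| ^ m / w ^ (m-1)`.
-/

set_option autoImplicit false
set_option linter.unusedSectionVars false

open Finset

namespace Pool.Agent.Helper52.Rare

section jensen

variable {Y σ : Type*} [Fintype σ] [DecidableEq σ]

/-- The basic logarithmic inequality. -/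
theorem log_class (R : Finset Y) (f : Y → σ) (d : Y → ℝ) (hd : ∀ y ∈ R, 0 < d y)
    (hR : R.Nonempty) (w : ℕ) (hw : Fintype.card σ ≤ w) (hw0 : 0 < w) :
    ∑ y ∈ R, Real.log (d y) + R.card * Real.log (R.card / w) ≤
      ∑ y ∈ R, Real.log (∑ y' ∈ R with f y' = f y, d y') := by
  classical
  have hN : (0 : ℝ) < R.card := by exact_mod_cast Finset.card_pos.2 hR
  have hw' : (0 : ℝ) < w := by exact_mod_cast hw0
  have hS : ∀ y ∈ R, 0 < ∑ y' ∈ R with f y' = f y, d y' := by
    intro y hy
    apply Finset.sum_pos
    · intro y' hy'
      exact hd y' (Finset.mem_filter.1 hy').1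
    · exact ⟨y, Finset.mem_filter.2 ⟨hy, rfl⟩⟩
  have key : ∀ y ∈ R, Real.log (d y) + Real.log (R.card / w) -
      Real.log (∑ y' ∈ R with f y' = f y, d y') ≤
      (R.card / w) * (d y / ∑ y' ∈ R with f y' = f y, d y') - 1 := by
    intro y hy
    have h1 := hd y hy
    have h2 := hS y hy
    have h3 : 0 < (R.card / w : ℝ) * (d y / ∑ y' ∈ R with f y' = f y, d y') := by positivity
    have h4 := Real.log_le_sub_one_of_pos h3
    rw [Real.log_mul (by positivity) (by positivity), Real.log_div (ne_of_gt h1) (ne_of_gt h2)]
      at h4
    linarith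
  have hsum := Finset.sum_le_sum key
  have hcl : ∑ y ∈ R, d y / (∑ y' ∈ R with f y' = f y, d y') ≤ w := by
    have : ∑ y ∈ R, d y / (∑ y' ∈ R with f y' = f y, d y') =
        ∑ c : σ, ∑ y ∈ R with f y = c, d y / (∑ y' ∈ R with f y' = f y, d y') :=
      (Finset.sum_fiberwise R f _).symm
    rw [this]
    calc ∑ c : σ, ∑ y ∈ R with f y = c, d y / (∑ y' ∈ R with f y' = f y, d y')
        ≤ ∑ c : σ, (1 : ℝ) := by
          apply Finset.sum_le_sum
          intro c _
          have h1 : ∑ y ∈ R with f y = c, d y / (∑ y' ∈ R with f y' = f y, d y') =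
              ∑ y ∈ R with f y = c, d y / (∑ y' ∈ R with f y' = c, d y') := by
            apply Finset.sum_congr rfl
            intro y hy
            rw [(Finset.mem_filter.1 hy).2]
          rw [h1, ← Finset.sum_div]
          exact div_self_le_one _
      _ = Fintype.card σ := by simp
      _ ≤ w := by exact_mod_cast hw
  rw [Finset.sum_sub_distrib, Finset.sum_add_distrib, Finset.sum_const, nsmul_eq_mul,
    Finset.sum_sub_distrib, ← Finset.mul_sum, Finset.sum_const, nsmul_eq_mul, mul_one] at hsum
  have h5 : (R.card / w : ℝ) * ∑ y ∈ R, d y / (∑ y' ∈ R with f y' = f y, d y') ≤ R.card := by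
    calc (R.card / w : ℝ) * ∑ y ∈ R, d y / (∑ y' ∈ R with f y' = f y, d y')
        ≤ (R.card / w : ℝ) * w := by
          apply mul_le_mul_of_nonneg_left hcl (by positivity)
      _ = R.card := by field_simp
  linarith

end jensen

section chains

variable {σ X Y : Type*} [Fintype σ] [DecidableEq σ] [Fintype X] [Fintype Y]
  (T : ℕ → σ → X → σ) (s : σ) (G : ℕ → Y → X)

/-- State after the blocks `G 0 y, ..., G (k-1) y`. -/
def st (k : ℕ) (y : Y) : σ := run T s k fun i => G i y

theorem st_zero (y : Y) : st T s G 0 y = s := rfl

theorem st_succ (k : ℕ) (y : Y) : st T s G (k + 1) y = T k (st T s G k y) (G k y) := rfl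

/-- Number of chains of length `k` in `R` ending in the state `c`. -/
def D (R : Finset Y) : ℕ → σ → ℝ
  | 0, c => if c = s then 1 else 0
  | k + 1, c => ∑ y ∈ R with st T s G (k + 1) y = c, D R k (st T s G k y)

theorem D_nonneg (R : Finset Y) (k : ℕ) (c : σ) : 0 ≤ D T s G R k c := by
  induction k generalizing c with
  | zero => simp only [D]; split_ifs <;> norm_num
  | succ k ih => simp only [D]; exact Finset.sum_nonneg fun y _ => ih _

theorem D_pos (R : Finset Y) (k : ℕ) (y : Y) (hy : y ∈ R) : 0 < D T s G R k (st T s G k y) := by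
  induction k with
  | zero => simp [D, st_zero]
  | succ k ih =>
    simp only [D]
    refine lt_of_lt_of_le ih ?_
    exact Finset.single_le_sum (f := fun y' => D T s G R k (st T s G k y'))
      (fun y' _ => D_nonneg T s G R k _) (Finset.mem_filter.2 ⟨hy, rfl⟩)

/-- Lower bound for the number of chains. -/
theorem chains_lower (R : Finset Y) (hR : R.Nonempty) (k : ℕ) :
    (k : ℝ) * (R.card * Real.log (R.card / Fintype.card σ)) ≤
      ∑ y ∈ R, Real.log (D T s G R k (st T s G k y)) := by
  induction k with
  | zero => simp [D, st_zero]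
  | succ k ih =>
    have hw0 : 0 < Fintype.card σ := Fintype.card_pos_iff.2 ⟨s⟩
    have h := log_class R (st T s G (k + 1)) (fun y => D T s G R k (st T s G k y))
      (fun y hy => D_pos T s G R k y hy) hR (Fintype.card σ) le_rfl hw0
    simp only [D]
    push_cast
    linarith

/-- The total number of chains. -/
theorem chains_total (R : Finset Y) (hR : R.Nonempty) (m : ℕ) :
    (Fintype.card σ : ℝ) * (R.card / Fintype.card σ) ^ (m + 1) ≤
      ∑ y ∈ R, D T s G R m (st T s G m y) := by
  have hw0 : 0 < Fintype.card σ := Fintype.card_pos_iff.2 ⟨s⟩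
  have hw' : (0 : ℝ) < Fintype.card σ := by exact_mod_cast hw0
  have hN : (0 : ℝ) < R.card := by exact_mod_cast Finset.card_pos.2 hR
  have hpos : 0 < ∑ y ∈ R, D T s G R m (st T s G m y) :=
    Finset.sum_pos (fun y hy => D_pos T s G R m y hy) hR
  have h1 := log_class R (fun _ => ()) (fun y => D T s G R m (st T s G m y))
      (fun y hy => D_pos T s G R m y hy) hR 1 (by simp) one_pos
  have h2 := chains_lower T s G R hR m
  simp only [Finset.filter_true, Finset.sum_const, nsmul_eq_mul, Nat.cast_one, div_one] at h1
  have h3 : (m : ℝ) * (R.card * Real.log (R.card / Fintype.card σ)) + R.card * Real.log R.card ≤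
      R.card * Real.log (∑ y ∈ R, D T s G R m (st T s G m y)) := by linarith
  have h4 : (m : ℝ) * Real.log (R.card / Fintype.card σ) + Real.log R.card ≤
      Real.log (∑ y ∈ R, D T s G R m (st T s G m y)) := by
    have h5 : (R.card : ℝ) * ((m : ℝ) * Real.log (R.card / Fintype.card σ) + Real.log R.card) ≤
      R.card * Real.log (∑ y ∈ R, D T s G R m (st T s G m y)) := by
      calc (R.card : ℝ) * ((m : ℝ) * Real.log (R.card / Fintype.card σ) + Real.log R.card) =
          (m : ℝ) * (R.card * Real.log (R.card / Fintype.card σ)) + R.card * Real.log R.card := by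
            ring
        _ ≤ _ := h3
    exact le_of_mul_le_mul_left h5 hN
  have h6 : Real.log ((Fintype.card σ : ℝ) * (R.card / Fintype.card σ) ^ (m + 1)) =
      (m : ℝ) * Real.log (R.card / Fintype.card σ) + Real.log R.card := by
    have : (Fintype.card σ : ℝ) * (R.card / Fintype.card σ) ^ (m + 1) =
        (R.card / Fintype.card σ) ^ m * R.card := by
      rw [pow_succ]; field_simp
    rw [this, Real.log_mul (by positivity) (by positivity), Real.log_pow]
  rw [← h6] at h4
  exact (Real.log_le_log_iff (by positivity) hpos).1 h4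

/-- Number of strings of length `k` leading to the state `c`. -/
def cnt (k : ℕ) (c : σ) : ℕ := (univ.filter fun z : Fin k → X => run T s k z = c).card

theorem cnt_zero (c : σ) : (cnt T s 0 c : ℝ) = if c = s then 1 else 0 := by
  unfold cnt
  simp only [run]
  split_ifs with h
  · subst h; simp
  · have : (univ.filter fun _ : Fin 0 → X => s = c) = ∅ := by
      apply Finset.filter_eq_empty_iff.2
      intro z _ h'; exact h h'.symm
    rw [this]; simp

theorem cnt_succ (k : ℕ) (c : σ) : (cnt T s (k + 1) c : ℝ) =
    ∑ a : σ, (cnt T s k a : ℝ) * ((univ.filter fun x : X => T k a x = c).card : ℝ) := by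
  classical
  have h1 : cnt T s (k + 1) c =
      (univ.filter fun p : X × (Fin k → X) => T k (run T s k p.2) p.1 = c).card := by
    unfold cnt
    rw [← Fintype.card_subtype, ← Fintype.card_subtype]
    apply Fintype.card_congr
    refine Equiv.subtypeEquiv (Fin.snocEquiv (fun _ => X)).symm ?_
    intro z
    simp only [run]
    rfl
  have h2 : (univ.filter fun p : X × (Fin k → X) => T k (run T s k p.2) p.1 = c).card =
      ∑ z : Fin k → X, (univ.filter fun x : X => T k (run T s k z) x = c).card := by
    simp only [Finset.card_filter]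
    rw [← Finset.univ_product_univ, Finset.sum_product_right]
  have h3 : ∑ z : Fin k → X, (univ.filter fun x : X => T k (run T s k z) x = c).card =
      ∑ a : σ, cnt T s k a * (univ.filter fun x : X => T k a x = c).card := by
    rw [← Finset.sum_fiberwise univ (fun z : Fin k → X => run T s k z)]
    apply Finset.sum_congr rfl
    intro a _
    unfold cnt
    rw [Finset.sum_congr rfl (g := fun _ => (univ.filter fun x : X => T k a x = c).card)]
    · rw [Finset.sum_const, smul_eq_mul]
    · intro z hz
      rw [(Finset.mem_filter.1 hz).2]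
  rw [h1, h2, h3]
  push_cast
  rfl

/-- Chains are dominated by runs with independent letters. -/
theorem chains_upper (R : Finset Y) (lam : ℝ) (hlam : 0 ≤ lam) (m : ℕ)
    (hgood : ∀ k < m, ∀ y ∈ R,
      lam * (univ.filter fun y' : Y =>
          T k (st T s G k y) (G k y') = st T s G (k + 1) y).card * Fintype.card X ≤
        (univ.filter fun x : X => T k (st T s G k y) x = st T s G (k + 1) y).card *
          Fintype.card Y) (k : ℕ) (hk : k ≤ m) (c : σ) :
    lam ^ k * D T s G R k c * (Fintype.card X : ℝ) ^ k ≤
      (Fintype.card Y : ℝ) ^ k * cnt T s k c := by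
  induction k generalizing c with
  | zero => rw [cnt_zero]; simp [D]
  | succ k ih =>
    have ih' := fun c => ih (by omega) c
    rw [cnt_succ]
    simp only [D]
    have hsplit : ∑ y ∈ R with st T s G (k + 1) y = c, D T s G R k (st T s G k y) =
        ∑ a : σ, ((R.filter fun y => st T s G (k + 1) y = c ∧ st T s G k y = a).card : ℝ) *
          D T s G R k a := by
      rw [← Finset.sum_fiberwise (R.filter fun y => st T s G (k + 1) y = c)
        (fun y => st T s G k y)]
      apply Finset.sum_congr rfl
      intro a _
      rw [Finset.filter_filter]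
      rw [Finset.sum_congr rfl (g := fun _ => D T s G R k a)]
      · rw [Finset.sum_const, nsmul_eq_mul]
      · intro y hy
        rw [(Finset.mem_filter.1 hy).2.2]
    rw [hsplit, Finset.mul_sum, Finset.sum_mul, Finset.mul_sum]
    apply Finset.sum_le_sum
    intro a _
    by_cases hne : (R.filter fun y => st T s G (k + 1) y = c ∧ st T s G k y = a).Nonempty
    · obtain ⟨y, hy⟩ := hne
      obtain ⟨hyR, hyc, hya⟩ := Finset.mem_filter.1 hy
      have hg := hgood k (by omega) y hyR
      rw [hyc, hya] at hg
      have hle : ((R.filter fun y => st T s G (k + 1) y = c ∧ st T s G k y = a).card : ℝ) ≤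
          (univ.filter fun y' : Y => T k a (G k y') = c).card := by
        exact_mod_cast Finset.card_le_card (by
          intro y' hy'
          obtain ⟨_, h1, h2⟩ := Finset.mem_filter.1 hy'
          rw [st_succ, h2] at h1
          exact Finset.mem_filter.2 ⟨Finset.mem_univ _, h1⟩)
      have hg' : lam * ((R.filter fun y => st T s G (k + 1) y = c ∧ st T s G k y = a).card : ℝ) *
          Fintype.card X ≤ (univ.filter fun x : X => T k a x = c).card * Fintype.card Y := by
        refine le_trans ?_ hg
        have : (0 : ℝ) ≤ Fintype.card X := by positivity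
        gcongr
      have h0 : 0 ≤ lam ^ k * D T s G R k a * (Fintype.card X : ℝ) ^ k := by
        have := D_nonneg T s G R k a
        positivity
      have h1 : 0 ≤ ((univ.filter fun x : X => T k a x = c).card : ℝ) * Fintype.card Y := by
        positivity
      calc lam ^ (k + 1) * (((R.filter fun y => st T s G (k + 1) y = c ∧
            st T s G k y = a).card : ℝ) * D T s G R k a) * (Fintype.card X : ℝ) ^ (k + 1)
          = (lam * ((R.filter fun y => st T s G (k + 1) y = c ∧ st T s G k y = a).card : ℝ) *
              Fintype.card X) * (lam ^ k * D T s G R k a * (Fintype.card X : ℝ) ^ k) := by ring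
        _ ≤ (((univ.filter fun x : X => T k a x = c).card : ℝ) * Fintype.card Y) *
              ((Fintype.card Y : ℝ) ^ k * cnt T s k a) :=
            mul_le_mul hg' (ih' a) h0 h1
        _ = (Fintype.card Y : ℝ) ^ (k + 1) * ((cnt T s k a : ℝ) *
              ((univ.filter fun x : X => T k a x = c).card : ℝ)) := by ring
    · rw [Finset.not_nonempty_iff_eq_empty] at hne
      rw [hne]
      simp only [Finset.card_empty, Nat.cast_zero, zero_mul, mul_zero]
      positivity

end chains

end Pool.Agent.Helper52.Rare
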