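import Mathlib

/-!
# Read-once programs: states and probabilities (definitions)
-/

set_option autoImplicit false

open Finset

namespace Pool.Agent.Helper52.Rare

/-- State of a read-once program after reading the blocks `z 0, ..., z (m-1)` from the start
state `s`; while reading the `k`-th block `x` the program moves from the state `a` to the state
`T k a x`. -/
def run {σ X : Type*} (T : ℕ → σ → X → σ) (s : σ) : (m : ℕ) → (Fin m → X) → σ
  | 0, _ => s
  | m + 1, z => T m (run T s m fun i => z i.castSucc) (z (Fin.last m))

open Classical in
/-- Probability of the event `E` for a uniformly random element of the finite type `Ω`. -/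
noncomputable def prob {Ω : Type*} [Fintype Ω] (E : Ω → Prop) : ℝ :=
  (univ.filter E).card / Fintype.card Ω

end Pool.Agent.Helper52.Rare
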