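import Pool.Agent.Helper52.Rare.Chains

/-!
# Programs with rare errors: the main inequality and its sharpness
-/

set_option autoImplicit false
set_option linter.unusedSectionVars false

open Finset

namespace Pool.Agent.Helper52.Rare

theorem main {σ X Y : Type*} [Fintype σ] [Fintype X] [Nonempty X] [Fintype Y] [Nonempty Y]
    (T : ℕ → σ → X → σ) (s : σ) (G : ℕ → Y → X) (B : σ → Prop) (m : ℕ) (hm : 0 < m)
    (lam θ μ : ℝ) (hlam : 0 ≤ lam) (hθ : 0 ≤ θ)
    (hG : ∀ k < m, ∀ a c : σ, θ ≤ prob (fun y : Y => T k a (G k y) = c) →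
      lam * prob (fun y : Y => T k a (G k y) = c) ≤ prob (fun x : X => T k a x = c))
    (hμ : μ ≤ prob (fun y : Y => B (run T s m fun i => G i y)))
    (hμθ : m * (Fintype.card σ : ℝ) ^ 2 * θ ≤ μ) :
    (Fintype.card σ : ℝ) * (lam * (μ - m * (Fintype.card σ : ℝ) ^ 2 * θ) / Fintype.card σ) ^ m ≤
      prob (fun z : Fin m → X => B (run T s m z)) := by
  classical
  have hY : (0 : ℝ) < Fintype.card Y := by exact_mod_cast Fintype.card_pos
  have hX : (0 : ℝ) < Fintype.card X := by exact_mod_cast Fintype.card_pos
  have hσ : (0 : ℝ) < Fintype.card σ := by exact_mod_cast Fintype.card_pos_iff.2 ⟨s⟩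
  set w : ℝ := (Fintype.card σ : ℝ) with hw
  set stt := st T s G with hst
  have hrun : ∀ (k : ℕ) (y : Y), (run T s k fun i => G i y) = stt k y := fun k y => rfl
  -- the set of accepted seeds and its good part
  set R : Finset Y := univ.filter fun y => B (stt m y) with hR
  have hRcard : μ * Fintype.card Y ≤ R.card := by
    have h1 : prob (fun y : Y => B (run T s m fun i => G i y)) = R.card / Fintype.card Y := by
      unfold prob
      rw [hR]
      rfl
    rw [h1, le_div_iff₀ hY] at hμ
    exact hμ
  set cl : ℕ → Y → Finset Y := fun k y =>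
    R.filter fun y' => stt k y' = stt k y ∧ stt (k + 1) y' = stt (k + 1) y with hcl
  set R' : Finset Y := R.filter fun y => ∀ k < m, θ * Fintype.card Y ≤ (cl k y).card with hR'
  have hlight : (R.card : ℝ) ≤ R'.card + m * w ^ 2 * θ * Fintype.card Y := by
    have hsub : R ⊆ R' ∪ (range m).biUnion fun k =>
        R.filter fun y => ((cl k y).card : ℝ) < θ * Fintype.card Y := by
      intro y hy
      by_cases h : ∀ k < m, θ * Fintype.card Y ≤ (cl k y).card
      · exact Finset.mem_union_left _ (Finset.mem_filter.2 ⟨hy, h⟩)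
      · push Not at h
        obtain ⟨k, hk, hlt⟩ := h
        exact Finset.mem_union_right _ (Finset.mem_biUnion.2 ⟨k, Finset.mem_range.2 hk,
          Finset.mem_filter.2 ⟨hy, hlt⟩⟩)
    have h1 : (R.card : ℝ) ≤ R'.card + ∑ k ∈ range m,
        ((R.filter fun y => ((cl k y).card : ℝ) < θ * Fintype.card Y).card : ℝ) := by
      have h2 := (Finset.card_le_card hsub).trans (Finset.card_union_le _ _)
      have h3 := h2.trans (Nat.add_le_add_left Finset.card_biUnion_le _)
      exact_mod_cast h3
    refine h1.trans ?_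
    have h4 : ∀ k ∈ range m,
        ((R.filter fun y => ((cl k y).card : ℝ) < θ * Fintype.card Y).card : ℝ) ≤
          w ^ 2 * θ * Fintype.card Y := by
      intro k _
      have h5 : ((R.filter fun y => ((cl k y).card : ℝ) < θ * Fintype.card Y).card : ℝ) =
          ∑ p : σ × σ, (((R.filter fun y => ((cl k y).card : ℝ) < θ * Fintype.card Y).filter
            fun y => (stt k y, stt (k + 1) y) = p).card : ℝ) := by
        have := Finset.card_eq_sum_card_fiberwise (s := R.filter fun y =>
          ((cl k y).card : ℝ) < θ * Fintype.card Y) (t := (univ : Finset (σ × σ)))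
          (f := fun y => (stt k y, stt (k + 1) y)) (fun _ _ => Finset.mem_coe.2 (Finset.mem_univ _))
        exact_mod_cast this
      rw [h5]
      have h6 : ∀ p ∈ (univ : Finset (σ × σ)),
          (((R.filter fun y => ((cl k y).card : ℝ) < θ * Fintype.card Y).filter
            fun y => (stt k y, stt (k + 1) y) = p).card : ℝ) ≤ θ * Fintype.card Y := by
        intro p _
        by_cases hne : ((R.filter fun y => ((cl k y).card : ℝ) < θ * Fintype.card Y).filter
            fun y => (stt k y, stt (k + 1) y) = p).Nonempty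
        · obtain ⟨y, hy⟩ := hne
          obtain ⟨hy1, hy2⟩ := Finset.mem_filter.1 hy
          obtain ⟨_, hy3⟩ := Finset.mem_filter.1 hy1
          refine le_trans ?_ hy3.le
          exact_mod_cast Finset.card_le_card (by
            intro y' hy'
            obtain ⟨h7, h8⟩ := Finset.mem_filter.1 hy'
            obtain ⟨h9, _⟩ := Finset.mem_filter.1 h7
            rw [← hy2] at h8
            rw [Prod.mk.injEq] at h8
            exact Finset.mem_filter.2 ⟨h9, h8⟩)
        · rw [Finset.not_nonempty_iff_eq_empty] at hne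
          rw [hne]
          simp only [Finset.card_empty, Nat.cast_zero]
          positivity
      refine (Finset.sum_le_sum h6).trans ?_
      rw [Finset.sum_const, nsmul_eq_mul, Finset.card_univ, Fintype.card_prod]
      push_cast
      rw [← hw]
      nlinarith
    have h7 := Finset.sum_le_sum h4
    rw [Finset.sum_const, Finset.card_range, nsmul_eq_mul] at h7
    linarith
  have hRR' : (μ - m * w ^ 2 * θ) * Fintype.card Y ≤ R'.card := by nlinarith
  -- rewrite the probability
  have hprob : prob (fun z : Fin m → X => B (run T s m z)) =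
      (∑ c ∈ univ.filter B, (cnt (X := X) T s m c : ℝ)) / (Fintype.card X : ℝ) ^ m := by
    unfold prob
    rw [Fintype.card_pi]
    simp only [Finset.prod_const, Finset.card_univ, Fintype.card_fin, Nat.cast_pow]
    congr 1
    have : (univ.filter fun z : Fin m → X => B (run T s m z)).card =
        ∑ c ∈ univ.filter B, cnt (X := X) T s m c := by
      rw [Finset.card_eq_sum_card_fiberwise (t := (univ.filter B : Finset σ))
        (f := fun z => run T s m z)]
      · apply Finset.sum_congr rfl
        intro c hc
        unfold cnt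
        congr 1
        ext z
        simp only [Finset.mem_filter, Finset.mem_univ, true_and] at hc ⊢
        constructor
        · rintro ⟨_, h⟩; exact h
        · intro h; rw [h]; exact ⟨hc, rfl⟩
      · intro z hz
        rw [Finset.mem_coe, Finset.mem_filter] at hz ⊢
        exact ⟨Finset.mem_univ _, hz.2⟩
    exact_mod_cast this
  rcases R'.eq_empty_or_nonempty with hemp | hne
  · have h0 : μ - m * w ^ 2 * θ ≤ 0 := by
      rw [hemp] at hRR'
      simp only [Finset.card_empty, Nat.cast_zero] at hRR'
      by_contra hcon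
      push Not at hcon
      have := mul_pos hcon hY
      linarith
    have h1 : μ - m * w ^ 2 * θ = 0 := le_antisymm h0 (by linarith)
    rw [h1, mul_zero, zero_div, zero_pow hm.ne', mul_zero]
    unfold prob
    positivity
  · obtain ⟨m', rfl⟩ : ∃ m', m = m' + 1 := ⟨m - 1, by omega⟩
    have hup := fun c => chains_upper T s G R' lam hlam (m' + 1) (by
      intro k hk y hy
      have hyR : y ∈ R := (Finset.mem_filter.1 hy).1
      have hyg := (Finset.mem_filter.1 hy).2 k hk
      have hq : θ ≤ prob (fun y' : Y => T k (stt k y) (G k y') = stt (k + 1) y) := by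
        unfold prob
        rw [le_div_iff₀ hY]
        refine hyg.trans ?_
        exact_mod_cast Finset.card_le_card (by
          intro y' hy'
          obtain ⟨_, h1, h2⟩ := Finset.mem_filter.1 hy'
          rw [hst, st_succ, ← hst, h1] at h2
          exact Finset.mem_filter.2 ⟨Finset.mem_univ _, h2⟩)
      have h := hG k hk (stt k y) (stt (k + 1) y) hq
      unfold prob at h
      rw [← mul_div_assoc, div_le_div_iff₀ hY hX] at h
      convert h using 3) (m' + 1) le_rfl c
    have hlow := chains_total T s G R' hne m'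
    have htot : ∑ y ∈ R', D T s G R' m' (st T s G m' y) =
        ∑ c ∈ univ.filter B, D T s G R' (m' + 1) c := by
      rw [← Finset.sum_fiberwise_of_maps_to (s := R') (t := univ.filter B)
        (g := fun y => st T s G (m' + 1) y)]
      · rfl
      · intro y hy
        have hyR : y ∈ R := (Finset.mem_filter.1 hy).1
        exact Finset.mem_filter.2 ⟨Finset.mem_univ _, (Finset.mem_filter.1 hyR).2⟩
    rw [hprob, le_div_iff₀ (by positivity)]
    have hsum : lam ^ (m' + 1) * (∑ c ∈ univ.filter B, D T s G R' (m' + 1) c) *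
        (Fintype.card X : ℝ) ^ (m' + 1) ≤ (Fintype.card Y : ℝ) ^ (m' + 1) *
          ∑ c ∈ univ.filter B, (cnt (X := X) T s (m' + 1) c : ℝ) := by
      rw [Finset.mul_sum, Finset.sum_mul, Finset.mul_sum]
      exact Finset.sum_le_sum fun c _ => hup c
    rw [← htot] at hsum
    have hA : 0 ≤ (μ - ((m' + 1 : ℕ) : ℝ) * w ^ 2 * θ) := by linarith
    have hB1 : (w * ((μ - ((m' + 1 : ℕ) : ℝ) * w ^ 2 * θ) / w) ^ (m' + 1)) *
        (Fintype.card Y : ℝ) ^ (m' + 1) ≤ w * (R'.card / w) ^ (m' + 1) := by
      have : ((μ - ((m' + 1 : ℕ) : ℝ) * w ^ 2 * θ) / w) ^ (m' + 1) *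
          (Fintype.card Y : ℝ) ^ (m' + 1) =
          ((μ - ((m' + 1 : ℕ) : ℝ) * w ^ 2 * θ) * Fintype.card Y / w) ^ (m' + 1) := by
        rw [← mul_pow]; congr 1; ring
      rw [mul_assoc, this]
      gcongr
    have hfin : (Fintype.card Y : ℝ) ^ (m' + 1) *
        (w * (lam * (μ - ((m' + 1 : ℕ) : ℝ) * w ^ 2 * θ) / w) ^ (m' + 1) *
          (Fintype.card X : ℝ) ^ (m' + 1)) ≤
        (Fintype.card Y : ℝ) ^ (m' + 1) *
          ∑ c ∈ univ.filter B, (cnt (X := X) T s (m' + 1) c : ℝ) := by
      refine le_trans ?_ hsum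
      have h1 : (Fintype.card Y : ℝ) ^ (m' + 1) *
        (w * (lam * (μ - ((m' + 1 : ℕ) : ℝ) * w ^ 2 * θ) / w) ^ (m' + 1) *
          (Fintype.card X : ℝ) ^ (m' + 1)) = lam ^ (m' + 1) *
          ((w * ((μ - ((m' + 1 : ℕ) : ℝ) * w ^ 2 * θ) / w) ^ (m' + 1)) *
            (Fintype.card Y : ℝ) ^ (m' + 1)) * (Fintype.card X : ℝ) ^ (m' + 1) := by
        rw [mul_div_assoc, mul_pow]; ring
      rw [h1]
      gcongr
      exact hB1.trans hlow
    exact le_of_mul_le_mul_left hfin (by positivity)

/-! ### Sharpness -/

section sharp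

variable {A Z : Type*} [Fintype A] [DecidableEq A] [Nonempty A] [Fintype Z] [Nonempty Z]

/-- The program that compares the first components of consecutive blocks. -/
def cmp (k : ℕ) (s : Option A) (x : A × Z) : Option A :=
  if k = 0 then some x.1 else if s = some x.1 then s else none

theorem run_cmp (m : ℕ) (z : Fin (m + 1) → A × Z) :
    run cmp none (m + 1) z = if ∀ i, (z i).1 = (z 0).1 then some (z 0).1 else none := by
  induction m with
  | zero =>
    have : ∀ i : Fin 1, (z i).1 = (z 0).1 := fun i => by rw [Subsingleton.elim i 0]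
    rw [if_pos this]
    simp [run, cmp]
  | succ m ih =>
    rw [run, ih]
    simp only [cmp, Nat.succ_ne_zero, if_false, Fin.castSucc_zero]
    by_cases h : ∀ i : Fin (m + 1), (z i.castSucc).1 = (z 0).1
    · rw [if_pos h]
      by_cases h2 : (z (Fin.last (m + 1))).1 = (z 0).1
      · have h3 : ∀ i : Fin (m + 1 + 1), (z i).1 = (z 0).1 := by
          intro i
          refine Fin.lastCases h2 (fun j => h j) i
        rw [if_pos h3, h2, if_pos rfl]
      · have h3 : ¬ ∀ i : Fin (m + 1 + 1), (z i).1 = (z 0).1 := fun h' => h2 (h' _)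
        rw [if_neg h3, if_neg]
        intro h4
        exact h2 (Option.some.inj h4).symm
    · rw [if_neg h]
      have h3 : ¬ ∀ i : Fin (m + 1 + 1), (z i).1 = (z 0).1 := fun h' => h fun i => h' _
      rw [if_neg h3, if_neg (by simp)]

theorem card_const (m : ℕ) : (univ.filter fun z : Fin (m + 1) → A × Z =>
    ∀ i, (z i).1 = (z 0).1).card = Fintype.card A * Fintype.card Z ^ (m + 1) := by
  classical
  have e : {z : Fin (m + 1) → A × Z // ∀ i, (z i).1 = (z 0).1} ≃ A × (Fin (m + 1) → Z) :=
    { toFun := fun z => ((z.1 0).1, fun i => (z.1 i).2)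
      invFun := fun p => ⟨fun i => (p.1, p.2 i), fun _ => rfl⟩
      left_inv := fun z => by
        apply Subtype.ext
        funext i
        exact Prod.ext (z.2 i).symm rfl
      right_inv := fun p => rfl }
  rw [← Fintype.card_subtype, Fintype.card_congr e, Fintype.card_prod, Fintype.card_pi]
  simp

theorem sharp (m : ℕ) (hm : 0 < m) :
    (∀ x : A × Z, run cmp none m (fun _ => x) ≠ none) ∧
    prob (fun z : Fin m → A × Z => run cmp none m z ≠ none) =
      (1 / (Fintype.card A : ℝ)) ^ (m - 1) := by
  classical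
  obtain ⟨m', rfl⟩ : ∃ m', m = m' + 1 := ⟨m - 1, by omega⟩
  refine ⟨fun x => by rw [run_cmp]; simp, ?_⟩
  have h1 : prob (fun z : Fin (m' + 1) → A × Z => run cmp none (m' + 1) z ≠ none) =
      ((univ.filter fun z : Fin (m' + 1) → A × Z => ∀ i, (z i).1 = (z 0).1).card : ℝ) /
        Fintype.card (Fin (m' + 1) → A × Z) := by
    unfold prob
    congr 3
    ext z
    simp only [Finset.mem_filter, Finset.mem_univ, true_and, run_cmp]
    split_ifs with h <;> simp [h]
  have hA : (0 : ℝ) < Fintype.card A := by exact_mod_cast Fintype.card_pos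
  have hZ : (0 : ℝ) < Fintype.card Z := by exact_mod_cast Fintype.card_pos
  rw [h1, card_const, Fintype.card_pi]
  simp only [Finset.prod_const, Finset.card_univ, Fintype.card_fin, Fintype.card_prod,
    Nat.add_sub_cancel]
  push_cast
  rw [mul_pow, div_pow, one_pow, pow_succ (Fintype.card A : ℝ) m']
  field_simp

end sharp

end Pool.Agent.Helper52.Rare
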